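import Pool.Agent.P8H17.FHK.Fin

/-!
# The 5-part of the Birch and Swinnerton-Dyer conjecture for the twists of `X_0(11)` over number fields

`D` is a squarefree positive integer such that 2, 5, 11 are inert and 3 does not split in
`Q = ℚ(√-D)`.  `E_D : y² + y = x³ + D x² - 10 D² x + (79 D³ - 1) / 4` is the twist of the modular curve
`X_0(11)` by `-D`, of conductor `11 D²`.  `K` is any subfield of degree `5 ^ n` of a cyclotomic field
`ℚ(ζ_N)`, where `N = 5 ^ a m`, `m` squarefree and prime to `5 * 11 * D`; by the theorem of Kronecker and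
Weber these are all the abelian fields of degree `5 ^ n` in which the divisors of `11 D` do not ramify.
There is no condition at 5: the layers of the cyclotomic `ℤ_5`-extension of `ℚ` are included.

We prove without any hypothesis that the number `r = L(E_D/K, 1) √|d_K| / Ω` is rational and integral at
5, and the equivalence of

* `r` is a unit at 5;
* `E_D(K)` is finite of order prime to 5 and `Ш(E_D/K)` has no element of order 5 (that is, the
  5-Selmer group over `K` is zero);
* the 5-part of the strong Birch and Swinnerton-Dyer conjecture holds for `E_D` over `K`, and all its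
  terms are prime to 5;
* 5 does not divide the class number of `Q`, and `Q` is inert at every prime that ramifies in `K`.

So the two sides of the formula are units at 5 for the same `D` and `K`, which are determined, and for
these the 5-part of the conjecture holds; in all other cases neither side is a unit at 5.

The proof.  `E_D[5]` is the sum of the two characters `χ` and `χ ω`, where `χ` is the character of `Q` and
`ω` the cyclotomic character modulo 5.

Fourth to second.  A nonzero 5-Selmer group over `K` has a nonzero class fixed by `Gal(K/ℚ)`.  It extends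
to a cocycle over `ℚ`, as `E_D(K)` has no points of order five, and this is unramified outside `30 D` and
11 (at the ramified primes `l ≠ 5` as `E_D[5]` has no points fixed by the Frobenius there).  The
`χ`-part of such a class is a cyclic extension of `Q` of degree five, dihedral over `ℚ`, unramified at
the divisors of `66 D`, and unramified at 5: this needs only that the class is locally trivial over
`K`, although `K` may be wildly ramified at 5, as the classes that are trivial over an abelian
extension of `ℚ_5` have no `χ`-part at 5.  The `χ ω`-part is an element of `Q` modulo fifth powers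
whose ideal is a fifth power away from 5, which is inert.  Both are trivial as 5 does not divide the
class number.

Second to fourth.  If 5 divides the class number, an ideal class of order five gives a Kummer cocycle
with values in `χ ω`; if a prime `l` that splits in `Q` ramifies in `K`, a generator of a power of a prime
over `l` does.  The local conditions over `K` hold at the divisors of `66 D` as the cohomology is zero,
at 5 as it is of dimension one over `ℚ_5` and generated by a point that is not divisible by 5, and at `l`
as the cocycle is unramified over `K`, where `E_D` has good reduction.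

Analytic side.  `L(E_D/K, 1)` is the product of the twisted sums of the integral modular symbols of `E_D`
for the characters of `K`, by the conductor-discriminant formula for these fields.  Modulo a prime over 5
the characters are trivial, and the sums are elementary multiples of the one for `ℚ` by the Hecke
relations at the tamely ramified primes, at which the factor is `a_l - 2`, and at 5, where it is a unit as
`a_5 = -1`.  The sum for `ℚ` is a sum of modular symbols of `X_0(11)`; these are congruent modulo 5 to the
ones of the logarithmic derivative of a quotient of eta functions (the space of modular symbols has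
dimension two), and the sum is the unit times a generalised Bernoulli number, which is the class
number.

The parts are by helper7, 11, 45, 48, 49, 52, 55, 56, 57, 63, 75, 78, 86, 88, 89, 93 and helper17; the
local theory at the unramified places is by helper17, 24, 29, 54, 55, 57, 72, 76, 80, 89 and 92.
-/

set_option autoImplicit false

open NumberField NumberField.InfinitePlace IsDedekindDomain WeierstrassCurve MeasureTheory

namespace Pool.Agent.Results.MP_9ab903_nt.FivePartTwistsOverFields

open scoped Classical

open Pool.Agent.TH841.NF.D (Sha)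

/-- The curve given by the equation of `W` over the ring `R`. -/
abbrev base (W : WeierstrassCurve ℤ) (R : Type) [CommRing R] : WeierstrassCurve R :=
  W.map (Int.castRingHom R)

/-- The number of the affine points `(x, y)` over the ring `R`. -/
noncomputable def pts (W : WeierstrassCurve ℤ) (R : Type) [CommRing R] : ℕ :=
  Nat.card {P : R × R // (base W R).toAffine.Equation P.1 P.2}

section

variable {K : Type} [Field K] [NumberField K]

/-- `a_v = N v + 1 - #W(k_v)`, the points over the residue field `k_v` counted with the point at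
infinity. -/
noncomputable def a (W : WeierstrassCurve ℤ) (v : HeightOneSpectrum (𝓞 K)) : ℤ :=
  (Ideal.absNorm v.asIdeal : ℤ) - pts W (𝓞 K ⧸ v.asIdeal)

/-- The Euler factor of `L(W/K, s)` at `v` : `(1 - a_v N v^(-s) + N v^(1 - 2 s))⁻¹` if the
discriminant is a unit at `v`, and `(1 - a_v N v^(-s))⁻¹` otherwise. -/
noncomputable def factor (W : WeierstrassCurve ℤ) (s : ℂ) (v : HeightOneSpectrum (𝓞 K)) : ℂ :=
  (1 - (a W v : ℂ) * (Ideal.absNorm v.asIdeal : ℂ) ^ (-s) +
    if ((W.Δ : ℤ) : 𝓞 K) ∈ v.asIdeal then 0 else (Ideal.absNorm v.asIdeal : ℂ) ^ (1 - 2 * s))⁻¹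

/-- The equation is minimal at the finite place `v` of `K`: no change of variables over `K` that
keeps the coefficients integral at `v` decreases the valuation of the discriminant. -/
def MinimalAt (W : WeierstrassCurve ℤ) (v : HeightOneSpectrum (𝓞 K)) : Prop :=
  ∀ C : VariableChange K, v.valuation K (C • base W K).a₁ ≤ 1 →
    v.valuation K (C • base W K).a₂ ≤ 1 → v.valuation K (C • base W K).a₃ ≤ 1 →
    v.valuation K (C • base W K).a₄ ≤ 1 → v.valuation K (C • base W K).a₆ ≤ 1 →
    v.valuation K (C • base W K).Δ ≤ v.valuation K (base W K).Δ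

/-- `E⁰(K_v)`, the group of the points of `W` over the completion `K_v` with nonsingular reduction:
the points `(x, y)` where `x` is not integral, or one of the partial derivatives of
`y² + a₁ x y + a₃ y - x³ - a₂ x² - a₄ x - a₆` is a unit at `(x, y)`, and the point at infinity. -/
noncomputable def nonsing (W : WeierstrassCurve ℤ) (v : HeightOneSpectrum (𝓞 K)) :
    AddSubgroup (base W (v.adicCompletion K)).toAffine.Point :=
  AddSubgroup.closure {P | ∀ x y h, P = Affine.Point.some x y h →
    1 < Valued.v x ∨ Valued.v (W.a₁ * y - (3 * x ^ 2 + 2 * W.a₂ * x + W.a₄)) = 1 ∨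
      Valued.v (2 * y + W.a₁ * x + W.a₃) = 1}

/-- The Tamagawa number `c_v = [E(K_v) : E⁰(K_v)]` of a minimal equation. -/
noncomputable def c (W : WeierstrassCurve ℤ) (v : HeightOneSpectrum (𝓞 K)) : ℕ :=
  (nonsing W v).index

end

section

variable (p : ℕ) (K : Type) [Field K] [NumberField K]

/-- The product of the Tamagawa numbers. -/
noncomputable def Tam (W : WeierstrassCurve ℤ) : ℕ := ∏ᶠ v : HeightOneSpectrum (𝓞 K), c W v

/-- The `p`-primary part of the Tate-Shafarevich group over `K`. -/
def ShaP (W : WeierstrassCurve ℤ) : Set (Sha (base W K)) := {x | ∃ n : ℕ, p ^ n • x = 0}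

/-- The torsion subgroup of the group of the points over `K`. -/
def tors (W : WeierstrassCurve ℤ) : Set (base W K).toAffine.Point := {P | ∃ n : ℕ, 0 < n ∧ n • P = 0}

/-- The rank of the group of the points over `K`. -/
noncomputable def rank (W : WeierstrassCurve ℤ) : ℕ := Module.finrank ℤ (base W K).toAffine.Point

end

/-- `4 x³ + b₂ x² + 2 b₄ x + b₆ = (2 y + a₁ x + a₃)²`, where `b₂ = a₁² + 4 a₂`,
`b₄ = 2 a₄ + a₁ a₃`, `b₆ = a₃² + 4 a₆`. -/
def cubic (W : WeierstrassCurve ℤ) {R : Type} [CommRing R] (x : R) : R :=
  4 * x ^ 3 + W.b₂ * x ^ 2 + 2 * W.b₄ * x + W.b₆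

/-- `∫_{W(ℝ)} |ω|` with `ω = dx / (2 y + a₁ x + a₃)`, as an integral over `x`: two real points lie
over each `x` with `cubic x > 0`. -/
noncomputable def realPeriod (W : WeierstrassCurve ℤ) : ℝ :=
  2 * ∫ x in {x : ℝ | 0 < cubic W x}, 1 / √(cubic W x)

/-- `2 ∫_{W(ℂ)} |ω ∧ ω̄|`, where `|ω ∧ ω̄| = du dv` in a local parameter `z = u + i v` with
`dz = ω`, as an integral over `x`: two points lie over a general `x`, and `|ω ∧ ω̄|` is the area
element of the plane of `x` divided by `|cubic x|`. -/
noncomputable def complexPeriod (W : WeierstrassCurve ℤ) : ℝ := 2 * (2 * ∫ x : ℂ, 1 / ‖cubic W x‖)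

/-- The global period of an equation that is minimal at all finite places. -/
noncomputable def Omega (K : Type) [Field K] [NumberField K] (W : WeierstrassCurve ℤ) : ℝ :=
  realPeriod W ^ nrRealPlaces K * complexPeriod W ^ nrComplexPlaces K

/-- `r` is the normalised value: the `L`-function of `W` over `K` is entire and
`L(1) √|Δ_K| = r Ω`. -/
def Value (K : Type) [Field K] [NumberField K] (W : WeierstrassCurve ℤ) (r : ℚ) : Prop :=
  ∃ L : ℂ → ℂ, Differentiable ℂ L ∧
    (∀ s : ℂ, 3 / 2 < s.re → HasProd (factor (K := K) W s) (L s)) ∧
    L 1 * √|(discr K : ℝ)| = r * Omega K W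

/-- The group of the points over `K` is finite of order prime to `p`, and the Tate-Shafarevich group
over `K` has no element of order `p`.  Equivalently, the `p`-Selmer group over `K` is zero. -/
structure SelmerZero (p : ℕ) (K : Type) [Field K] [NumberField K] (W : WeierstrassCurve ℤ) :
    Prop where
  points : Finite (base W K).toAffine.Point
  card : ¬ p ∣ Nat.card (base W K).toAffine.Point
  sha : ∀ s : Sha (base W K), p • s = 0 → s = 0

/-- **The `p`-part of the Birch and Swinnerton-Dyer conjecture** for `W` over `K`, the equation being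
minimal and the rank being zero: almost all Tamagawa numbers are one; the `L`-function is entire; its
order at `s = 1` is the rank; the `p`-primary part of the Tate-Shafarevich group is finite; and
`L(1) √|Δ_K| / Ω` is a rational number with the same `p`-adic valuation as
`#Ш[p^∞] Tam / #tors²`. -/
structure BSDPart (p : ℕ) (K : Type) [Field K] [NumberField K] (W : WeierstrassCurve ℤ) : Prop where
  minimal : ∀ v : HeightOneSpectrum (𝓞 K), MinimalAt W v
  tam : {v : HeightOneSpectrum (𝓞 K) | c W v ≠ 1}.Finite
  rank : rank K W = 0
  points : Finite (base W K).toAffine.Point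
  sha : (ShaP p K W).Finite
  formula : ∃ L : ℂ → ℂ, Differentiable ℂ L ∧
    (∀ s : ℂ, 3 / 2 < s.re → HasProd (factor (K := K) W s) (L s)) ∧ analyticOrderAt L 1 = 0 ∧
    ∃ r : ℚ, L 1 * √|(discr K : ℝ)| = r * Omega K W ∧ r ≠ 0 ∧
      padicValRat p r = padicValRat p
        ((Nat.card (ShaP p K W) * Tam K W : ℚ) / (Nat.card (tors K W) : ℚ) ^ 2)

/-- The algebraic terms of the formula are prime to `p`. -/
structure AllUnits (p : ℕ) (K : Type) [Field K] [NumberField K] (W : WeierstrassCurve ℤ) : Prop where
  sha : ShaP p K W = {0}
  tam : ¬ p ∣ Tam K W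
  tors : ¬ p ∣ Nat.card (tors K W)

/-- The conditions on `D`: squarefree, and 2, 5, 11 are inert in `ℚ(√-D)` and 3 does not split. -/
structure Disc (D : ℕ) : Prop where
  squarefree : Squarefree D
  two : D % 8 = 3
  three : D % 3 ≠ 2
  five : D % 5 = 2 ∨ D % 5 = 3
  eleven : D % 11 = 1 ∨ D % 11 = 3 ∨ D % 11 = 4 ∨ D % 11 = 5 ∨ D % 11 = 9

/-- The equation `y² + y = x³ + D x² - 10 D² x + (79 D³ - 1) / 4` of the twist of `X_0(11)` by `-D` (for
`D ≡ 3` modulo 4 the last coefficient is an integer). -/
def E (D : ℕ) : WeierstrassCurve ℤ := ⟨0, D, 1, -10 * (D : ℤ) ^ 2, (79 * (D : ℤ) ^ 3 - 1) / 4⟩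

/-- Every prime number `l` that ramifies in `K` is inert in `ℚ(√-D)`: `-D` is not a square modulo
`l`. -/
def RamifiedInert (K : Type) [Field K] [NumberField K] (D : ℕ) : Prop :=
  ∀ (l : ℕ) (v : HeightOneSpectrum (𝓞 K)), l.Prime → (l : 𝓞 K) ∈ v.asIdeal ^ 2 →
    ¬ IsSquare ((-(D : ℤ) : ℤ) : ZMod l)

theorem bsd_iff {p : ℕ} {K : Type} [Field K] [NumberField K] {W : WeierstrassCurve ℤ} :
    (BSDPart p K W ∧ AllUnits p K W) ↔
      (OddPartLifting.BSDPart p K W ∧ OddPartLifting.AllUnits p K W) :=
  ⟨fun h => ⟨⟨h.1.minimal, h.1.tam, h.1.rank, h.1.points, h.1.sha, h.1.formula⟩,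
      ⟨h.2.sha, h.2.tam, h.2.tors⟩⟩,
    fun h => ⟨⟨h.1.minimal, h.1.tam, h.1.rank, h.1.points, h.1.sha, h.1.formula⟩,
      ⟨h.2.sha, h.2.tam, h.2.tors⟩⟩⟩

theorem selmer_iff {p : ℕ} {K : Type} [Field K] [NumberField K] {W : WeierstrassCurve ℤ} :
    SelmerZero p K W ↔ Pool.Agent.P8H4.PL.P1 p W K :=
  ⟨fun h => ⟨h.sha, h.points, h.card⟩, fun h => ⟨h.fin, h.card, h.sha⟩⟩

/-- **Main theorem.** Let `D` be a squarefree positive integer such that 2, 5, 11 are inert in
`Q = ℚ(√-D)` and 3 does not split in `Q`, and `E_D` the twist of `X_0(11)` by `-D`.  Let `m` be squarefree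
and prime to `5 * 11 * D`, and let `K` be a subfield of the cyclotomic field of the roots of unity of
order `5 ^ a m` with `[K : ℚ] = 5 ^ n`.  Then the `L`-function of `E_D` over `K` is entire, the
normalised value `r` at 1 is a rational number integral at 5, and the following are equivalent: `r` is a
unit at 5; the 5-Selmer group of `E_D` over `K` is zero; the 5-part of the strong Birch and
Swinnerton-Dyer conjecture holds for `E_D` over `K` with all its terms prime to 5; and 5 does not divide
the class number of `Q` and every prime number that ramifies in `K` is inert in `Q`. -/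
theorem result (D : ℕ) (hD : Disc D) (Q : Type) [Field Q] [NumberField Q]
    (hQ : Module.finrank ℚ Q = 2) (hα : ∃ α : Q, α ^ 2 = -(D : Q))
    (a m : ℕ) [NeZero (5 ^ a * m)] (hsq : Squarefree m) (hm : Nat.Coprime m (5 * 11 * D))
    (M : Type) [Field M] [NumberField M] [IsCyclotomicExtension {5 ^ a * m} ℚ M]
    (K : IntermediateField ℚ M) (n : ℕ) (hn : Module.finrank ℚ K = 5 ^ n) :
    ∃ r : ℚ, Value K (E D) r ∧ 0 ≤ padicValRat 5 r ∧
      List.TFAE [r ≠ 0 ∧ padicValRat 5 r = 0,
        SelmerZero 5 K (E D),
        BSDPart 5 K (E D) ∧ AllUnits 5 K (E D),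
        ¬ 5 ∣ classNumber Q ∧ RamifiedInert K D] := by
  have hDD : Pool.Agent.P8H11.FH.Disc D := ⟨hD.squarefree, hD.two, hD.three, hD.five, hD.eleven⟩
  have hcl : Pool.Agent.P8H11.FH.Cl5 D ↔ ¬ 5 ∣ classNumber Q :=
    Pool.Agent.P8H11.FH.cl5_iff hDD Q hQ hα
  have h5 : ¬ 5 ∣ m := fun h => by
    have := Nat.dvd_gcd h (show 5 ∣ 5 * 11 * D from ⟨11 * D, by ring⟩)
    rw [hm] at this
    norm_num at this
  have hmD : Nat.Coprime m (11 * D) := by
    have e : 5 * 11 * D = 5 * (11 * D) := by ring
    rw [e] at hm
    exact Nat.Coprime.coprime_mul_left_right hm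
  obtain ⟨r, h1, h2, h3⟩ := Pool.Agent.P8H17.FHK.t_total hDD a m hsq h5 hmD M K n hn
  refine ⟨r, h1, h2, ?_⟩
  rw [bsd_iff, selmer_iff, ← hcl]
  exact h3

end Pool.Agent.Results.MP_9ab903_nt.FivePartTwistsOverFields
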