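import Pool.Agent.Results.MP_92892c_nt.TwoPartFixedNumber
import Pool.Agent.Results.MP_1a91b9_nt.FormulaModTwoAllTwists

/-!
# The 2-part of the strong conjecture of Birch and Swinnerton-Dyer for the quadratic twists of `X_0(49)`
# over all the fields of 2-power degree of prime conductor `r ∈ R` at the same time: the exact proportion
# in thin families

`D ≥ 1` is squarefree with all prime factors `≡ 1 mod 4`, and `E_D` is the quadratic twist by `D` of
`X_0(49) : y² + x y = x³ - x² - 2 x - 1`.  `R` is a set of primes `r ≡ 1 mod 4` which are inert in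
`ℚ(√-7)`.  The layers are the subfields `K ≠ ℚ` of 2-power degree of the fields `ℚ(ζ_r)`, `r ∈ R`.

A prime `p ≡ 1 mod 4` is good for a layer `K` if it splits completely in `K` in the case that it splits
in `ℚ(√-7)`, and if its Frobenius element in `Gal(K/ℚ)` has order one or two in the case that it is
inert in `ℚ(√-7)`.

* Let `D` have a prime factor that splits in `ℚ(√-7)`.  The 2-part of the conjecture with all terms
  units at two holds for `E_D` over a layer `K` if and only if all the prime factors of `D` are good for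
  `K` and the 2-part with all terms units at two holds for `E_D` over `ℚ`.  So, if all prime factors of
  `D` are good for all the layers, then it holds over one layer if and only if it holds over all of them.
* Fix the numbers `k ≥ 1` and `m ≥ 1` of the prime factors of `D` which are split and inert in
  `ℚ(√-7)`, and an arbitrary set `S` of primes which are good for all the layers, which contains the prime
  factors of `D`, such that at least a positive proportion of the primes up to `Y` are in `S`, `1` modulo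
  `4` and split, and at least a positive proportion are in `S`, `1` modulo `4` and inert.  Then the number
  of the `D ≤ X` has the order of magnitude `X (log log X)^(k+m-1) / log X`, and the proportion of those
  for which the 2-part of the conjecture holds for `E_D` over ALL the layers and over `ℚ`, with all terms
  units at two, tends to `∏_{i < ⌈k/2⌉} (1 - 2^{-(2i+1)})`.
* If `R` is finite, this applies to the set `S` of all primes that are `1` modulo all `r ∈ R`.

The formula over a single layer for a single `D` is the starting result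
`MP_1a91b9_nt/FormulaModTwoAllTwists`; the counting is `Pool/Agent/P8H17/X49`.
-/

set_option autoImplicit false

open NumberField IsDedekindDomain WeierstrassCurve Finset Filter Topology

namespace Pool.Agent.Results.MP_9ab903_nt.TwistsOverAllLayers

open Pool.Agent.TH841.NF.D (Sha)
open Pool.Agent.Results.MP_1a91b9_nt.FormulaModTwoAllTwists (twist base MinimalAt Sha2 anOrder)
open Pool.Agent.Results.MP_4a9ea6_nt.TwoPartTwistsX49 (TwoPart)
open Pool.Agent.Results.MP_92892c_nt.TwoPartFixedNumber (InClass Splits Inert Family Rich count)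

/-- The 2-part of the strong conjecture for `E_D` over `K`, with all terms units at two: the equation
of `E_D` is minimal at all finite places, `E_D(K)` is finite, the 2-primary part of `Ш(E_D/K)` is zero,
`L(E_D/K, s)` has an entire continuation `Λ` with `Λ 1 ≠ 0`, and the order of `Ш(E_D/K)` predicted by the
formula, `√|Disc K| #E_D(K)_tors² Λ(1) / (Ω ∏ c_v)`, is a unit at all the primes above two. -/
def TwoPartOver (K : Type) [Field K] [NumberField K] (D : ℕ) : Prop :=
  (∀ v : HeightOneSpectrum (𝓞 K), MinimalAt (base (twist D) K) v) ∧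
  Finite (base (twist D) K).toAffine.Point ∧ Sha2 (base (twist D) K) = {0} ∧
  ∃ Λ : ℂ → ℂ, Differentiable ℂ Λ ∧
    (∀ s : ℂ, 2 < s.re → Λ s = (base (twist D) K).LSeries s) ∧ Λ 1 ≠ 0 ∧
    ∃ m : ℤ, Odd m ∧ _root_.IsIntegral ℤ (m * anOrder K (twist D) (Λ 1)) ∧
      _root_.IsIntegral ℤ (m * (anOrder K (twist D) (Λ 1))⁻¹)

/-- `p` splits completely in the subfield `K` of degree `2 ^ n` of `ℚ(ζ_r)`, if it splits in `ℚ(√-7)`,
and its Frobenius element in `Gal(K/ℚ)` has order one or two, if it is inert in `ℚ(√-7)` -/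
def GoodFor (r n p : ℕ) : Prop :=
  (Splits p → ∃ y : ZMod r, y ^ 2 ^ n = (p : ZMod r)) ∧
    (Inert p → ∃ y : ZMod r, y ^ 2 ^ n = (p : ZMod r) ^ 2)

/-- `r` is a prime `≡ 1 mod 4` which is inert in `ℚ(√-7)` -/
def IsLevel (r : ℕ) : Prop := r.Prime ∧ r % 4 = 1 ∧ Inert r

/-- The 2-part of the strong conjecture holds, with all terms units at two, for `E_D` over `ℚ` and over
all the subfields `K ≠ ℚ` of 2-power degree of the fields `ℚ(ζ_r)`, `r ∈ R`. -/
def OverAllLayers (R : Set ℕ) (D : ℕ) : Prop :=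
  TwoPart D ∧ ∀ r ∈ R, ∀ (K : IntermediateField ℚ (CyclotomicField r ℚ)) (n : ℕ), 1 ≤ n →
    Module.finrank ℚ K = 2 ^ n → TwoPartOver K D

/-- all the primes in `S` that are `1` modulo `4` are not in `R`, and good for all the layers -/
def Good (R S : Set ℕ) : Prop := ∀ p ∈ S, p.Prime → p % 4 = 1 → p ∉ R ∧
  ∀ r ∈ R, ∀ n : ℕ, 2 ^ n ∣ r - 1 → GoodFor r n p

/-- the number of the `D ≤ X` in the family is between two positive constants times
`X (log log X)^(k+m-1) / log X`, and the proportion of those for which the 2-part holds over all the layers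
and over `ℚ` tends to `∏_{i < ⌈k/2⌉} (1 - 2^{-(2i+1)})` -/
def Law (R S : Set ℕ) (k m : ℕ) : Prop :=
  (∃ (c C : ℝ) (X₀ : ℕ), 0 < c ∧ 0 < C ∧ ∀ X : ℕ, X₀ ≤ X →
    c * (X * Real.log (Real.log X) ^ (k + m - 1) / Real.log X) ≤ (count (Family S k m) X : ℝ) ∧
    (count (Family S k m) X : ℝ) ≤ C * (X * Real.log (Real.log X) ^ (k + m - 1) / Real.log X)) ∧
  Tendsto (fun X : ℕ => (count (fun D => Family S k m D ∧ OverAllLayers R D) X : ℝ) /
    (count (Family S k m) X : ℝ)) atTop
    (𝓝 (∏ i ∈ range ((k + 1) / 2), (1 - (1 / 2 : ℝ) ^ (2 * i + 1))))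

section proof

open Pool.Agent.Results.MP_4a9ea6_nt.TwoPartTwistsX49 (two_iff inert split union_eq disj mat_eq)

lemma splits_iff {p : ℕ} (hp : p.Prime) (h4 : p % 4 = 1) : IsSquare (-7 : ZMod p) ↔ Splits p :=
  (Pool.Agent.R413.SQ.Cor.mk_iff hp h4).trans
    (Pool.Agent.Results.MP_92892c_nt.TwoPartFixedNumber.mk_split p)

lemma inert_iff {p : ℕ} (hp : p.Prime) (h4 : p % 4 = 1) : ¬ IsSquare (-7 : ZMod p) ↔ Inert p := by
  have h7 : p % 7 ≠ 0 := by
    intro h0
    have h1 := (Nat.prime_dvd_prime_iff_eq (by norm_num) hp).1 (Nat.dvd_of_mod_eq_zero h0)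
    omega
  rw [splits_iff hp h4]
  unfold Splits Inert
  omega

/-- the formula over one layer -/
theorem layer {r n : ℕ} (hr : IsLevel r) (hn : 1 ≤ n)
    (K : IntermediateField ℚ (CyclotomicField r ℚ)) (hK : Module.finrank ℚ K = 2 ^ n) {D : ℕ}
    (hD : InClass D) (hs : ∃ p, p.Prime ∧ p ∣ D ∧ Splits p) (hrD : ¬ r ∣ D) :
    TwoPartOver K D ↔ (∀ p : ℕ, p.Prime → p ∣ D → GoodFor r n p) ∧ TwoPart D := by
  classical
  have hmem : ∀ p, p ∈ D.primeFactors ↔ p.Prime ∧ p ∣ D := fun p => by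
    rw [Nat.mem_primeFactors]
    exact ⟨fun h => ⟨h.1, h.2.1⟩, fun h => ⟨h.1, h.2, hD.1.ne_zero⟩⟩
  have hQ : ∀ q ∈ inert D, q.Prime ∧ q % 4 = 1 ∧ ¬ IsSquare (-7 : ZMod q) ∧ q ≠ r := by
    intro q hq
    unfold inert at hq
    obtain ⟨h1, h2⟩ := Finset.mem_filter.1 hq
    refine ⟨((hmem q).1 h1).1, hD.2 q h1, h2, ?_⟩
    rintro rfl
    exact hrD ((hmem q).1 h1).2
  have hP : ∀ p ∈ split D, p.Prime ∧ p % 4 = 1 ∧ IsSquare (-7 : ZMod p) := by
    intro q hq
    unfold split at hq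
    obtain ⟨h1, h2⟩ := Finset.mem_filter.1 hq
    exact ⟨((hmem q).1 h1).1, hD.2 q h1, h2⟩
  have hne : (split D).Nonempty := by
    obtain ⟨p, hp, hpD, hsp⟩ := hs
    have h1 := (hmem p).2 ⟨hp, hpD⟩
    exact ⟨p, Finset.mem_filter.2 ⟨h1, (splits_iff hp (hD.2 p h1)).2 hsp⟩⟩
  have hprod : D = (∏ q ∈ inert D, q) * ∏ p ∈ split D, p := by
    rw [← Finset.prod_union (disj D), union_eq, Nat.prod_primeFactors_of_squarefree hD.1]
  have hr7 : ¬ IsSquare (-7 : ZMod r) := (inert_iff hr.1 hr.2.1).2 hr.2.2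
  obtain ⟨h1, -, h3, h4, -, Λ, h5, h6, h7, h8, h9⟩ :=
    Pool.Agent.Results.MP_1a91b9_nt.FormulaModTwoAllTwists.result hr.1 hr.2.1 hr7 hn K hK
      (inert D) hQ (split D) hP (Or.inl hne) D hprod
  -- the condition
  have hcond : Pool.Agent.Results.MP_1a91b9_nt.FormulaModTwoAllTwists.Cond r n (inert D) (split D) ↔
      (∀ p : ℕ, p.Prime → p ∣ D → GoodFor r n p) ∧ TwoPart D := by
    unfold Pool.Agent.Results.MP_1a91b9_nt.FormulaModTwoAllTwists.Cond
    have hm : (Pool.Agent.Results.MP_1a91b9_nt.FormulaModTwoAllTwists.mat (inert D) (split D)).det ≠ 0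
        ↔ TwoPart D := by
      rw [two_iff hD, ← mat_eq]
      exact Iff.rfl
    rw [hm, ← and_assoc]
    refine and_congr_left fun _ => ?_
    constructor
    · rintro ⟨a1, a2⟩ p hp hpD
      have hpm := (hmem p).2 ⟨hp, hpD⟩
      have hp4 := hD.2 p hpm
      refine ⟨fun hsp => a2 p ?_, fun hin => a1 p ?_⟩
      · exact Finset.mem_filter.2 ⟨hpm, (splits_iff hp hp4).2 hsp⟩
      · exact Finset.mem_filter.2 ⟨hpm, (inert_iff hp hp4).2 hin⟩
    · intro a
      refine ⟨fun q hq => ?_, fun q hq => ?_⟩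
      · obtain ⟨b1, b2⟩ := Finset.mem_filter.1 hq
        have b3 := (hmem q).1 b1
        exact (a q b3.1 b3.2).2 ((inert_iff b3.1 (hD.2 q b1)).1 b2)
      · obtain ⟨b1, b2⟩ := Finset.mem_filter.1 hq
        have b3 := (hmem q).1 b1
        exact (a q b3.1 b3.2).1 ((splits_iff b3.1 (hD.2 q b1)).1 b2)
  rw [← hcond]
  constructor
  · rintro ⟨-, a2, a3, -⟩
    refine h3.1 ⟨a2, fun x hx => ?_⟩
    have hx2 : x ∈ Sha2 (base (twist D) K) := ⟨1, by rw [pow_one, two_nsmul, hx]⟩
    rw [a3] at hx2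
    exact hx2
  · intro hC
    obtain ⟨b1, b2⟩ := h4 hC
    obtain ⟨b3, m₂, hm₂, i₂⟩ := h9 hC
    refine ⟨h1, (h3.2 hC).1, b1, Λ, h5, h6, b3, ?_⟩
    obtain ⟨m₁, hm₁, i₁⟩ := Pool.Agent.Y698.int_of_val
      (x := anOrder K (twist D) (Λ 1)) fun Γ _ v hv => (h8 Γ v hv).1
    refine ⟨m₁ * m₂, hm₁.mul hm₂, ?_, ?_⟩
    · have e : ((m₁ * m₂ : ℤ) : ℂ) * anOrder K (twist D) (Λ 1) =
          (m₂ : ℂ) * ((m₁ : ℂ) * anOrder K (twist D) (Λ 1)) := by
        push_cast; ring
      rw [e]
      exact IsIntegral.mul (isIntegral_algebraMap (R := ℤ) (A := ℂ) (x := m₂)) i₁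
    · have e : ((m₁ * m₂ : ℤ) : ℂ) * (anOrder K (twist D) (Λ 1))⁻¹ =
          (m₁ : ℂ) * ((m₂ : ℂ) * (anOrder K (twist D) (Λ 1))⁻¹) := by
        push_cast; ring
      rw [e]
      exact IsIntegral.mul (isIntegral_algebraMap (R := ℤ) (A := ℂ) (x := m₁)) i₂

/-- the degree of a layer divides `r - 1` -/
lemma deg_dvd {r n : ℕ} (hr : r.Prime) (K : IntermediateField ℚ (CyclotomicField r ℚ))
    (hK : Module.finrank ℚ K = 2 ^ n) : 2 ^ n ∣ r - 1 := by
  have : Fact r.Prime := ⟨hr⟩
  have hM : IsCyclotomicExtension {r} ℚ (CyclotomicField r ℚ) := Pool.Agent.Y698.cyc_inst r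
  have h1 : Module.finrank ℚ (CyclotomicField r ℚ) = r.totient :=
    IsCyclotomicExtension.finrank (n := r) (CyclotomicField r ℚ)
      (Polynomial.cyclotomic.irreducible_rat hr.pos)
  rw [Nat.totient_prime hr] at h1
  rw [← h1, ← hK]
  exact Dvd.intro _ (Module.finrank_mul_finrank ℚ K (CyclotomicField r ℚ))

theorem all_iff {R S : Set ℕ} (hR : ∀ r ∈ R, IsLevel r) (hS : Good R S) {k m D : ℕ} (hk : 1 ≤ k)
    (hD : Family S k m D) : OverAllLayers R D ↔ TwoPart D := by
  classical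
  refine ⟨fun h => h.1, fun h => ⟨h, fun r hr K n hn hK => ?_⟩⟩
  have hmem : ∀ p, p.Prime → p ∣ D → p ∈ D.primeFactors := fun p hp hpD =>
    Nat.mem_primeFactors.2 ⟨hp, hpD, hD.1.1.ne_zero⟩
  have hgood : ∀ p, p.Prime → p ∣ D → p ∉ R ∧ ∀ r ∈ R, ∀ n : ℕ, 2 ^ n ∣ r - 1 → GoodFor r n p :=
    fun p hp hpD => hS p (hD.2.1 p (hmem p hp hpD)) hp (hD.1.2 p (hmem p hp hpD))
  have hs : ∃ p, p.Prime ∧ p ∣ D ∧ Splits p := by
    have h1 : 0 < Nat.card {p : ℕ // p.Prime ∧ p ∣ D ∧ Splits p} := by rw [hD.2.2.1]; exact hk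
    obtain ⟨p, hp⟩ := (Nat.card_pos_iff.1 h1).1
    exact ⟨p, hp⟩
  have hrD : ¬ r ∣ D := fun hd => (hgood r (hR r hr).1 hd).1 hr
  exact (layer (hR r hr) hn K hK hD.1 hs hrD).2
    ⟨fun p hp hpD => (hgood p hp hpD).2 r hr n (deg_dvd (hR r hr).1 K hK), h⟩

end proof

/-- **Main theorem.**  `R` is a set of primes `r ≡ 1 mod 4` which are inert in `ℚ(√-7)`.
(1) Let `D` be in the class, with at least one prime factor that splits in `ℚ(√-7)`, and not divisible
by `r ∈ R`.  Over a subfield `K` of degree `2 ^ n > 1` of `ℚ(ζ_r)` the 2-part of the strong conjecture with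
all terms units at two holds for `E_D` if and only if the prime factors of `D` are good for `K` and it
holds over `ℚ`.
(2) The exact proportion in the thin families, for all the layers at the same time.
(3) For finite `R` this applies to the primes that are `1` modulo all the elements of `R`. -/
theorem result (R : Set ℕ) (hR : ∀ r ∈ R, IsLevel r) :
    (∀ D : ℕ, InClass D → (∃ p, p.Prime ∧ p ∣ D ∧ Splits p) → ∀ r ∈ R, ¬ r ∣ D →
      ∀ (K : IntermediateField ℚ (CyclotomicField r ℚ)) (n : ℕ), 1 ≤ n →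
        Module.finrank ℚ K = 2 ^ n →
        (TwoPartOver K D ↔ (∀ p : ℕ, p.Prime → p ∣ D → GoodFor r n p) ∧ TwoPart D)) ∧
    (∀ (S : Set ℕ) (k m : ℕ), 1 ≤ k → 1 ≤ m → Good R S → Rich S k → Law R S k m) ∧
    (R.Finite → Good R {p | ∀ r ∈ R, p % r = 1} ∧ ∀ k : ℕ, Rich {p | ∀ r ∈ R, p % r = 1} k) := by
  classical
  refine ⟨fun D hD hs r hr hrD K n hn hK => layer (hR r hr) hn K hK hD hs hrD,
    fun S k m hk hm hS hrich => ?_, fun hfin => ⟨?_, fun k => ?_⟩⟩
  · have h := (Pool.Agent.Results.MP_92892c_nt.TwoPartFixedNumber.result).1 S k m hm hrich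
    refine ⟨h.1, h.2.congr fun X => ?_⟩
    have e : count (fun D => Family S k m D ∧ TwoPart D) X =
        count (fun D => Family S k m D ∧ OverAllLayers R D) X := by
      unfold count
      refine Nat.card_congr (Equiv.subtypeEquivRight fun D => ?_)
      refine and_congr_right fun _ => and_congr_right fun _ => and_congr_right fun hD => ?_
      exact (all_iff hR hS hk hD).symm
    rw [e]
  · intro p hp hpp hp4
    refine ⟨fun hpR => ?_, fun r hr n hn => ?_⟩
    · have h1 := hp p hpR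
      rw [Nat.mod_self] at h1
      exact absurd h1 (by norm_num)
    · have h1 : (p : ZMod r) = 1 := by
        have h2 : p % r = 1 := hp r hr
        have h3 : ((p % r : ℕ) : ZMod r) = (p : ZMod r) := ZMod.natCast_mod p r
        rw [← h3, h2, Nat.cast_one]
      refine ⟨fun _ => ⟨1, by rw [one_pow, h1]⟩, fun _ => ⟨1, by rw [one_pow, h1, one_pow]⟩⟩
  · obtain ⟨T, hT⟩ : ∃ T : Finset ℕ, (T : Set ℕ) = R := ⟨hfin.toFinset, hfin.coe_toFinset⟩
    have hq : Nat.Coprime (∏ r ∈ T, r) 28 := by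
      refine Nat.Coprime.prod_left fun r hr => ?_
      have h1 := hR r (hT ▸ Finset.mem_coe.2 hr)
      rw [h1.1.coprime_iff_not_dvd]
      intro h2
      have h3 : r ∣ 2 ^ 2 * 7 := h2
      rcases (h1.1.dvd_mul).1 h3 with h4 | h4
      · have h5 := h1.1.dvd_of_dvd_pow h4
        have h6 := (Nat.prime_dvd_prime_iff_eq h1.1 Nat.prime_two).1 h5
        have h7 := h1.2.1
        omega
      · have h6 := (Nat.prime_dvd_prime_iff_eq h1.1 (by norm_num)).1 h4
        have h7 := h1.2.1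
        omega
    have h1 := (Pool.Agent.Results.MP_92892c_nt.TwoPartFixedNumber.result).2.1 (∏ r ∈ T, r) 1 hq
      (Nat.coprime_one_left _) k
    have key : ∀ p : ℕ, p % (∏ r ∈ T, r) = 1 % (∏ r ∈ T, r) → ∀ r ∈ R, p % r = 1 := by
      intro p hp r hr
      have h2 : r ∈ T := Finset.mem_coe.1 (hT.symm ▸ hr)
      have h3 : p % r = 1 % r := (Nat.ModEq.of_dvd (Finset.dvd_prod_of_mem _ h2) hp :)
      rw [h3]
      exact Nat.mod_eq_of_lt (hR r hr).1.one_lt
    have mono : ∀ T' : ℕ → Prop,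
        Pool.Agent.Results.MP_92892c_nt.TwoPartFixedNumber.Dense
          {p | p % (∏ r ∈ T, r) = 1 % (∏ r ∈ T, r)} T' →
        Pool.Agent.Results.MP_92892c_nt.TwoPartFixedNumber.Dense {p | ∀ r ∈ R, p % r = 1} T' := by
      rintro T' ⟨δ, Y₀, hδ, h⟩
      refine ⟨δ, Y₀, hδ, fun Y hY => (h Y hY).trans ?_⟩
      have : Finite {p : ℕ // p ≤ Y ∧ p ∈ {p | ∀ r ∈ R, p % r = 1} ∧ p.Prime ∧ p % 4 = 1 ∧ T' p} :=
        Finite.of_injective (fun p => (⟨p.1, Nat.lt_succ_of_le p.2.1⟩ : Fin (Y + 1)))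
          fun a b hab => Subtype.ext (congrArg (fun z : Fin (Y + 1) => (z : ℕ)) hab)
      exact_mod_cast Nat.card_le_card_of_injective
        (fun p : {p : ℕ // p ≤ Y ∧ p ∈ {p | p % (∏ r ∈ T, r) = 1 % (∏ r ∈ T, r)} ∧ p.Prime ∧
          p % 4 = 1 ∧ T' p} => (⟨p.1, p.2.1, key p.1 p.2.2.1, p.2.2.2⟩ :
            {p : ℕ // p ≤ Y ∧ p ∈ {p | ∀ r ∈ R, p % r = 1} ∧ p.Prime ∧ p % 4 = 1 ∧ T' p}))
        fun a b hab => Subtype.ext (congrArg (fun z => z.1) hab)
    exact ⟨h1.1.imp id (mono _), mono _ h1.2⟩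

end Pool.Agent.Results.MP_9ab903_nt.TwistsOverAllLayers
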