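import Pool.Agent.P8H4.PT.Tw
import Pool.Agent.P8H4.PT.Alg
import Pool.Agent.P8H4.PL.Tam
import Pool.Agent.P8H4.PM.Loc2
import Pool.Agent.P8H4.PM.UL
import Pool.Agent.Y563.G.Epq

/-!
# The `2`-part of the Birch and Swinnerton-Dyer conjecture in abelian `2`-extensions of abelian fields

`W` is the minimal equation of a modular elliptic curve `E` over `ℚ` and `k ⊂ K ⊂ ℚ(ζ_m)` are abelian
number fields, `m` odd, squarefree and prime to `Δ`, with `[K : k]` a power of two, such that the
places of `k` above three do not ramify in `K`; if `Δ > 0` the field `K` is totally real.  The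
`2`-part of the Birch and Swinnerton-Dyer conjecture holds for `E` over `K` with all its terms (the
order of `Ш[2^∞]`, the Tamagawa product, the order of the torsion group) odd if and only if it holds
for `E` over `k` with all its terms odd and `#E(k_w)` is odd for all the places `w` of `k` which
ramify in `K`.  There is no condition on the decomposition of any place: the places of bad reduction
and the ones above two can be inert.

The proof.  Algebraic side.  A nonzero `2`-Selmer group over the `2`-extension `K` has a nonzero class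
fixed by `Gal(K/k)`.  It extends to a cocycle over `k`, as `E(K)` has no points of order two.  The
extended cocycle is locally trivial: at the finite places `w` that do not ramify, as
`H¹(Gal(K_v/k_w), E(K_v)) = 0` for the unramified extension `K_v/k_w` of `2`-power degree when the
Tamagawa number at `w` is odd (Lang's theorem for the points with nonsingular reduction, and the
filtration of the formal group); at the ramified places `w` as `E[2]` has no fixed points under the
decomposition group; at the real places which become complex as `E(ℝ)` is connected for `Δ < 0`.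
Conversely a class over `k` vanishes if it vanishes over `K`.  The equation is minimal over `K` and
its Tamagawa numbers are odd if and only if this holds over `k`, as the places of bad reduction do not
ramify and the `2`-group `Gal(K/k)` acts on the component groups.

Analytic side.  `L(E/K, s)` is the product of the twists `L(E, χ, s)` over the characters of `K`, and
`D τ(χ⁻¹) L(E, χ, 1)` is a half period `Ω^±` times the sum of the integral modular symbols `A` (for
even `χ`) or `B` (for odd `χ`) twisted by `χ⁻¹`, `D` odd.  All these sums are twice an algebraic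
integer: there is a function `u` on the rational numbers modulo one with `A(x) = u(x) + u(-x)`, and
`B(x) = u(x) - u(-x)` when `Δ < 0` (as the period lattice is not rectangular: `A` and `B` have the
same parity), so that the sums of `A` or `B` twisted by a character of odd level are twice the sums
of `u`.  (For `Δ > 0` and `x = 0` this uses that `A(0)` is even, by the Hecke relation for an odd prime
`l` with `a_l` odd.)  The powers of two in the global period are exactly the powers of two in the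
product of these sums.  Write `χ = ψ η` with `ψ` of odd order and `η` of `2`-power order.  Modulo the
primes above two the sum of `u` for `χ` is the sum for `ψ` times the product of
`a_l - ψ(l) - ψ(l)⁻¹` over the primes `l` that divide the conductor of `χ` and not the one of `ψ`, by
the Hecke relations for `A` and `B`.  These factors divide `#E(k_w)` modulo two for `w` above `l`.
-/

set_option autoImplicit false

open NumberField NumberField.InfinitePlace IsDedekindDomain WeierstrassCurve MeasureTheory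
open UpperHalfPlane MatrixGroups CongruenceSubgroup

namespace Pool.Agent.Results.MP_9ab903_nt.TwoPartRelative

open scoped Classical

open Pool.Agent.TH841.NF.D (Sha)

/-- The curve given by the equation of `W` over the ring `R`. -/
abbrev base (W : WeierstrassCurve ℤ) (R : Type) [CommRing R] : WeierstrassCurve R :=
  W.map (Int.castRingHom R)

/-- The number of the affine points `(x, y)` over the ring `R`. -/
noncomputable def pts (W : WeierstrassCurve ℤ) (R : Type) [CommRing R] : ℕ :=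
  Nat.card {P : R × R // (base W R).toAffine.Equation P.1 P.2}

section

variable {K : Type} [Field K] [NumberField K]

/-- `a_v = N v + 1 - #W(k_v)`, the points over the residue field `k_v` counted with the point at
infinity. -/
noncomputable def a (W : WeierstrassCurve ℤ) (v : HeightOneSpectrum (𝓞 K)) : ℤ :=
  (Ideal.absNorm v.asIdeal : ℤ) - pts W (𝓞 K ⧸ v.asIdeal)

/-- The Euler factor of `L(W/K, s)` at `v` : `(1 - a_v N v^(-s) + N v^(1 - 2 s))⁻¹` if the
discriminant is a unit at `v`, and `(1 - a_v N v^(-s))⁻¹` otherwise. -/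
noncomputable def factor (W : WeierstrassCurve ℤ) (s : ℂ) (v : HeightOneSpectrum (𝓞 K)) : ℂ :=
  (1 - (a W v : ℂ) * (Ideal.absNorm v.asIdeal : ℂ) ^ (-s) +
    if ((W.Δ : ℤ) : 𝓞 K) ∈ v.asIdeal then 0 else (Ideal.absNorm v.asIdeal : ℂ) ^ (1 - 2 * s))⁻¹

/-- The equation is minimal at the finite place `v` of `K`: no change of variables over `K` that
keeps the coefficients integral at `v` decreases the valuation of the discriminant. -/
def MinimalAt (W : WeierstrassCurve ℤ) (v : HeightOneSpectrum (𝓞 K)) : Prop :=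
  ∀ C : VariableChange K, v.valuation K (C • base W K).a₁ ≤ 1 →
    v.valuation K (C • base W K).a₂ ≤ 1 → v.valuation K (C • base W K).a₃ ≤ 1 →
    v.valuation K (C • base W K).a₄ ≤ 1 → v.valuation K (C • base W K).a₆ ≤ 1 →
    v.valuation K (C • base W K).Δ ≤ v.valuation K (base W K).Δ

/-- `E⁰(K_v)`, the group of the points of `W` over the completion `K_v` with nonsingular reduction:
the points `(x, y)` where `x` is not integral, or one of the partial derivatives of
`y² + a₁ x y + a₃ y - x³ - a₂ x² - a₄ x - a₆` is a unit at `(x, y)`, and the point at infinity. -/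
noncomputable def nonsing (W : WeierstrassCurve ℤ) (v : HeightOneSpectrum (𝓞 K)) :
    AddSubgroup (base W (v.adicCompletion K)).toAffine.Point :=
  AddSubgroup.closure {P | ∀ x y h, P = Affine.Point.some x y h →
    1 < Valued.v x ∨ Valued.v (W.a₁ * y - (3 * x ^ 2 + 2 * W.a₂ * x + W.a₄)) = 1 ∨
      Valued.v (2 * y + W.a₁ * x + W.a₃) = 1}

/-- The Tamagawa number `c_v = [E(K_v) : E⁰(K_v)]` of a minimal equation. -/
noncomputable def c (W : WeierstrassCurve ℤ) (v : HeightOneSpectrum (𝓞 K)) : ℕ :=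
  (nonsing W v).index

end

section

variable (p : ℕ) (K : Type) [Field K] [NumberField K]

/-- The product of the Tamagawa numbers. -/
noncomputable def Tam (W : WeierstrassCurve ℤ) : ℕ := ∏ᶠ v : HeightOneSpectrum (𝓞 K), c W v

/-- The `p`-primary part of the Tate-Shafarevich group over `K`. -/
def ShaP (W : WeierstrassCurve ℤ) : Set (Sha (base W K)) := {x | ∃ n : ℕ, p ^ n • x = 0}

/-- The torsion subgroup of the group of the points over `K`. -/
def tors (W : WeierstrassCurve ℤ) : Set (base W K).toAffine.Point := {P | ∃ n : ℕ, 0 < n ∧ n • P = 0}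

/-- The rank of the group of the points over `K`. -/
noncomputable def rank (W : WeierstrassCurve ℤ) : ℕ := Module.finrank ℤ (base W K).toAffine.Point

end

/-- `4 x³ + b₂ x² + 2 b₄ x + b₆ = (2 y + a₁ x + a₃)²`, where `b₂ = a₁² + 4 a₂`,
`b₄ = 2 a₄ + a₁ a₃`, `b₆ = a₃² + 4 a₆`. -/
def cubic (W : WeierstrassCurve ℤ) {R : Type} [CommRing R] (x : R) : R :=
  4 * x ^ 3 + W.b₂ * x ^ 2 + 2 * W.b₄ * x + W.b₆

/-- `∫_{W(ℝ)} |ω|` with `ω = dx / (2 y + a₁ x + a₃)`, as an integral over `x`: two real points lie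
over each `x` with `cubic x > 0`. -/
noncomputable def realPeriod (W : WeierstrassCurve ℤ) : ℝ :=
  2 * ∫ x in {x : ℝ | 0 < cubic W x}, 1 / √(cubic W x)

/-- `2 ∫_{W(ℂ)} |ω ∧ ω̄|`, where `|ω ∧ ω̄| = du dv` in a local parameter `z = u + i v` with
`dz = ω`, as an integral over `x`: two points lie over a general `x`, and `|ω ∧ ω̄|` is the area
element of the plane of `x` divided by `|cubic x|`. -/
noncomputable def complexPeriod (W : WeierstrassCurve ℤ) : ℝ := 2 * (2 * ∫ x : ℂ, 1 / ‖cubic W x‖)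

/-- The global period of an equation that is minimal at all finite places. -/
noncomputable def Omega (K : Type) [Field K] [NumberField K] (W : WeierstrassCurve ℤ) : ℝ :=
  realPeriod W ^ nrRealPlaces K * complexPeriod W ^ nrComplexPlaces K

/-- **The `p`-part of the Birch and Swinnerton-Dyer conjecture** for `W` over `K`, the equation being
minimal and the rank being zero: almost all Tamagawa numbers are one; the `L`-function is entire; its
order at `s = 1` is the rank; the `p`-primary part of the Tate-Shafarevich group is finite; and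
`L(1) √|Δ_K| / Ω` is a rational number with the same `p`-adic valuation as
`#Ш[p^∞] Tam / #tors²`. -/
structure BSDPart (p : ℕ) (K : Type) [Field K] [NumberField K] (W : WeierstrassCurve ℤ) : Prop where
  minimal : ∀ v : HeightOneSpectrum (𝓞 K), MinimalAt W v
  tam : {v : HeightOneSpectrum (𝓞 K) | c W v ≠ 1}.Finite
  rank : rank K W = 0
  points : Finite (base W K).toAffine.Point
  sha : (ShaP p K W).Finite
  formula : ∃ L : ℂ → ℂ, Differentiable ℂ L ∧
    (∀ s : ℂ, 3 / 2 < s.re → HasProd (factor (K := K) W s) (L s)) ∧ analyticOrderAt L 1 = 0 ∧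
    ∃ r : ℚ, L 1 * √|(discr K : ℝ)| = r * Omega K W ∧ r ≠ 0 ∧
      padicValRat p r = padicValRat p
        ((Nat.card (ShaP p K W) * Tam K W : ℚ) / (Nat.card (tors K W) : ℚ) ^ 2)

/-- The algebraic terms of the formula are prime to `p`. -/
structure AllUnits (p : ℕ) (K : Type) [Field K] [NumberField K] (W : WeierstrassCurve ℤ) : Prop where
  sha : ShaP p K W = {0}
  tam : ¬ p ∣ Tam K W
  tors : ¬ p ∣ Nat.card (tors K W)

section modular

variable {N : ℕ}

/-- The `n`-th coefficient of the cusp form `f = ∑ a_n q^n`. -/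
noncomputable def co (f : CuspForm (Gamma0 N : Subgroup (GL (Fin 2) ℝ)) 2) (n : ℕ) : ℂ :=
  (qExpansion 1 f).coeff n

/-- `2 π i ∫_(i∞)^z f(w) dw = ∑ a_n / n e^(2 π i n z)`. -/
noncomputable def prim (f : CuspForm (Gamma0 N : Subgroup (GL (Fin 2) ℝ)) 2) (z : ℂ) : ℂ :=
  ∑' n : ℕ, co f n / n * Complex.exp (2 * Real.pi * Complex.I * n * z)

/-- The cusp form `f` of weight two for `Γ₀(N)` is the newform of `W`: it is a normalised eigenform
of the Hecke operators and of the Fricke involution, with real coefficients that satisfy the bounds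
of Hasse, `N` has the same prime divisors as the discriminant, and `a_p = p + 1 - #W(𝔽_p)`. -/
structure IsNewform (W : WeierstrassCurve ℤ) (N : ℕ)
    (f : CuspForm (Gamma0 N : Subgroup (GL (Fin 2) ℝ)) 2) : Prop where
  one : co f 1 = 1
  real : ∀ n, (co f n).im = 0
  mul : ∀ m n : ℕ, Nat.Coprime m n → co f (m * n) = co f m * co f n
  pow : ∀ p j : ℕ, p.Prime → co f (p ^ (j + 2)) = co f p * co f (p ^ (j + 1)) -
      (if p ∣ N then 0 else (p : ℂ) * co f (p ^ j))
  good : ∀ p : ℕ, p.Prime → ¬ p ∣ N → ‖co f p‖ ≤ 2 * Real.sqrt p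
  bad : ∀ p : ℕ, p.Prime → p ∣ N → ‖co f p‖ ≤ 1
  fricke : ∃ w : ℝ, (w = 1 ∨ w = -1) ∧ ∀ τ τ' : ℍ, (τ' : ℂ) * ((N : ℂ) * (τ : ℂ)) = -1 →
    f τ' = -(w : ℂ) * (N : ℂ) * (τ : ℂ) ^ 2 * f τ
  level : ∀ p : ℕ, p.Prime → (p ∣ N ↔ (p : ℤ) ∣ W.Δ)
  coef : ∀ p : ℕ, p.Prime → co f p = (p : ℂ) - (pts W (ZMod p) : ℂ)

end modular

/-- The place `v` of `K` lies above the place `w` of `k ⊂ K` and is ramified: `w 𝓞_K ⊂ v²`. -/
def Ramified {M : Type} [Field M] [NumberField M] {k K : IntermediateField ℚ M} (hkK : k ≤ K)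
    (w : HeightOneSpectrum (𝓞 k)) (v : HeightOneSpectrum (𝓞 K)) : Prop :=
  w.asIdeal.map (RingOfIntegers.mapRingHom (IntermediateField.inclusion hkK)) ≤ v.asIdeal ^ 2

section proof

open Pool.Agent.Y702
open Pool.Agent.P8H4.PL (Pt P1 tn IsSym ZB tw al exists_red l_val prod_unit prod_int
  prod_tn tn_finite Ram below_under)
open Pool.Agent.P8H4.PT (HalfSym Rel sc_two per_neg per_pos sym_neg sym_pos nz_iff_half p1_down)

variable {N : ℕ} [NeZero N]

omit [NeZero N] in
lemma isForm {W : WeierstrassCurve ℤ} {f : CuspForm (Gamma0 N : Subgroup (GL (Fin 2) ℝ)) 2}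
    (h : IsNewform W N f) : G.IsForm W N f :=
  ⟨h.one, h.real, h.mul, h.pow, h.good, h.bad, h.fricke, h.level, h.coef⟩

lemma min_eq {K : Type} [Field K] [NumberField K] (W : WeierstrassCurve ℤ)
    (v : HeightOneSpectrum (𝓞 K)) : MinimalAt W v ↔ G.MinimalAt W v := Iff.rfl

lemma c_eq {K : Type} [Field K] [NumberField K] (W : WeierstrassCurve ℤ)
    (v : HeightOneSpectrum (𝓞 K)) : c W v = tn W v := rfl

lemma Tam_eq {K : Type} [Field K] [NumberField K] (W : WeierstrassCurve ℤ) :
    Tam K W = ∏ᶠ v : HeightOneSpectrum (𝓞 K), tn W v := rfl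

section alg

variable {K : Type} [Field K] [NumberField K] {W : WeierstrassCurve ℤ} {p : ℕ}

omit [NumberField K] in
lemma tors_eq (h : Finite (base W K).toAffine.Point) : tors K W = Set.univ := by
  ext P
  simp only [Set.mem_univ, iff_true]
  exact ⟨Nat.card (base W K).toAffine.Point, Nat.card_pos,
    card_nsmul_eq_zero' (G := (base W K).toAffine.Point) (x := P)⟩

omit [NumberField K] in
lemma rank_eq (h : Finite (base W K).toAffine.Point) : rank K W = 0 := by
  unfold rank
  apply Module.IsTorsion.finrank_eq_zero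
  intro P
  refine ⟨⟨(Nat.card (base W K).toAffine.Point : ℤ), ?_⟩, ?_⟩
  · rw [mem_nonZeroDivisors_iff_ne_zero]
    exact_mod_cast Nat.card_pos.ne'
  · show (Nat.card (base W K).toAffine.Point : ℤ) • P = 0
    rw [natCast_zsmul]
    exact card_nsmul_eq_zero'

lemma sha_iff : ShaP p K W = {0} ↔ ∀ s : Sha (base W K), p • s = 0 → s = 0 := by
  constructor
  · intro h s hs
    have h1 : s ∈ ShaP p K W := ⟨1, by rw [pow_one]; exact hs⟩
    rw [h] at h1
    exact h1
  · intro h
    have key : ∀ (j : ℕ) (x : Sha (base W K)), p ^ j • x = 0 → x = 0 := by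
      intro j
      induction j with
      | zero => intro x hx; rw [pow_zero, one_nsmul] at hx; exact hx
      | succ j ih =>
        intro x hx
        rw [pow_succ, mul_nsmul] at hx
        exact ih x (h _ hx)
    ext x
    constructor
    · rintro ⟨k, hk⟩
      exact key k x hk
    · rintro rfl
      exact ⟨0, nsmul_zero _⟩

lemma units_val (hp : p.Prime) (h : AllUnits p K W) : padicValRat p
    ((Nat.card (ShaP p K W) * Tam K W : ℚ) / (Nat.card (tors K W) : ℚ) ^ 2) = 0 := by
  have h0 : Tam K W ≠ 0 := fun h0 => h.tam (h0 ▸ dvd_zero p)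
  have h1 : Nat.card (tors K W) ≠ 0 := fun h0 => h.tors (h0 ▸ dvd_zero p)
  rw [h.sha, Nat.card_unique, Nat.cast_one, one_mul]
  have : Fact p.Prime := ⟨hp⟩
  rw [padicValRat.div (Nat.cast_ne_zero.2 h0)
    (pow_ne_zero _ (Nat.cast_ne_zero.2 h1)), padicValRat.pow, padicValRat.of_nat,
    padicValRat.of_nat, padicValNat.eq_zero_of_not_dvd h.tam,
    padicValNat.eq_zero_of_not_dvd h.tors]
  simp

/-- the algebraic terms -/
lemma units_iff (hΔ : W.Δ ≠ 0) (hp : p.Prime) :
    (AllUnits p K W ∧ Finite (base W K).toAffine.Point) ↔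
      P1 p W K ∧ ∀ v : HeightOneSpectrum (𝓞 K), ¬ p ∣ tn W v := by
  constructor
  · rintro ⟨h, hfin⟩
    refine ⟨⟨sha_iff.1 h.sha, hfin, ?_⟩, ?_⟩
    · have h1 := h.tors
      rw [tors_eq hfin, Nat.card_univ] at h1
      exact h1
    · have h1 := h.tam
      rw [Tam_eq, prod_tn hΔ hp] at h1
      exact h1
  · rintro ⟨h, h2⟩
    have hfin : Finite (base W K).toAffine.Point := h.fin
    refine ⟨⟨sha_iff.2 h.sha, ?_, ?_⟩, hfin⟩
    · rw [Tam_eq, prod_tn hΔ hp]
      exact h2
    · rw [tors_eq hfin, Nat.card_univ]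
      exact h.card

end alg

/-- the value of a rational number which is a quotient of two numbers prime to `p` -/
lemma val_zero {p : ℕ} (hp : p.Prime) (D M : ℤ) (hD : ¬ (p : ℤ) ∣ D) (hM : M ≠ 0) (ε : ℚ)
    (hε : ε = 1 ∨ ε = -1) (e : ℚ) (he0 : e ≠ 0) (he : padicValRat p e = 0) :
    padicValRat p (ε * (|(M : ℚ)| / (|(D : ℚ)| * e))) = 0 ↔ ¬ (p : ℤ) ∣ M := by
  have : Fact p.Prime := ⟨hp⟩
  have hD0 : D ≠ 0 := fun h => hD (h ▸ dvd_zero _)
  have h1 : ∀ N : ℤ, padicValRat p |(N : ℚ)| = padicValNat p N.natAbs := by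
    intro N
    have e : |(N : ℚ)| = ((N.natAbs : ℕ) : ℚ) := by
      rw [Nat.cast_natAbs, Int.cast_abs]
    rw [e, padicValRat.of_nat]
  have h2 : padicValRat p (|(M : ℚ)| / (|(D : ℚ)| * e)) = padicValNat p M.natAbs := by
    rw [padicValRat.div (abs_ne_zero.2 (Int.cast_ne_zero.2 hM))
      (mul_ne_zero (abs_ne_zero.2 (Int.cast_ne_zero.2 hD0)) he0),
      padicValRat.mul (abs_ne_zero.2 (Int.cast_ne_zero.2 hD0)) he0, h1, h1, he,
      padicValNat.eq_zero_of_not_dvd (fun h => hD (Int.natCast_dvd.2 h))]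
    simp
  have h3 : padicValRat p (ε * (|(M : ℚ)| / (|(D : ℚ)| * e))) = padicValNat p M.natAbs := by
    rcases hε with rfl | rfl
    · rw [one_mul]; exact h2
    · rw [neg_one_mul, padicValRat.neg]; exact h2
  rw [h3, Int.natCast_dvd]
  constructor
  · intro h4 h5
    have h6 : 0 < padicValNat p M.natAbs := by
      have := one_le_padicValNat_of_dvd (Int.natAbs_ne_zero.2 hM) h5
      omega
    omega
  · intro h4
    rw [padicValNat.eq_zero_of_not_dvd h4]
    rfl

section core

open H300.HW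

variable {W : WeierstrassCurve ℤ} {f : CuspForm (Gamma0 N : Subgroup (GL (Fin 2) ℝ)) 2}

/-- the conjecture over a subfield of a cyclotomic field in terms of the twisted sums -/
theorem field_iff (hΔ : W.Δ ≠ 0) (hf : G.IsForm W N f)
    {Op Om : ℝ} (hOp : 0 < Op) (hOm : 0 < Om) {e : ℕ}
    (hR : ∫ x in {x : ℝ | 0 < G.cubic W x}, 1 / √(G.cubic W x) = Op)
    (hC : 2 * (2 * ∫ x : ℂ, 1 / ‖G.cubic W x‖) = 2 ^ e * (Op * Om))
    {D : ℤ} (hD : ¬ (2 : ℤ) ∣ D) {A B u : ℚ → ℤ} (hS : IsSym f Op Om D A B)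
    {neg : Prop} (hH : HalfSym neg A B u)
    {𝔽 : Type} [Field 𝔽] [CharP 𝔽 2] (φ : ZB →+* 𝔽)
    (m : ℕ) [NeZero m] (hsq : Squarefree m) (hodd : Odd m) (hmN : Nat.Coprime m N)
    (M : Type) [Field M] [NumberField M] [IsCyclotomicExtension {m} ℚ M]
    (F : IntermediateField ℚ M) (hrel : ∀ χ ∈ YY m M F, Rel neg χ)
    (hE : nrRealPlaces F + e * nrComplexPlaces F = Module.finrank ℚ F) :
    (BSDPart 2 F W ∧ AllUnits 2 F W) ↔ P1 2 W F ∧
      ((∀ v : HeightOneSpectrum (𝓞 F), G.MinimalAt W v) ∧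
        ∀ v : HeightOneSpectrum (𝓞 F), ¬ 2 ∣ tn W v) ∧ ∀ χ ∈ YY m M F, tw φ u u χ ≠ 0 := by
  have hp := Nat.prime_two
  obtain ⟨H, hHd, hHp, him, M₀, hM₀, hval⟩ := l_val hOp hOm hf hS m hsq hmN M F
  obtain ⟨M', hM'⟩ := prod_int u u (YY m M F)
  have hunit := prod_unit (p := 2) φ u u (YY m M F) M' hM'
  set d := Module.finrank ℚ F with hd
  -- the power of two
  have hMM : M₀ = 2 ^ d * M' := by
    have h1 : ((M₀ : ℤ) : ZB) = ((2 ^ d * M' : ℤ) : ZB) := by
      rw [← hM₀, Finset.prod_congr rfl (fun χ _ => sc_two hH hodd _ (hrel _ χ.2)),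
        Finset.prod_mul_distrib, Finset.prod_const, Finset.card_univ, ← Nat.card_eq_fintype_card,
        Pool.Agent.P8H4.PL.card_YY', hM']
      push_cast
      rfl
    exact_mod_cast h1
  -- the periods
  have hreal : realPeriod W = 2 * Op := by
    unfold realPeriod
    exact congrArg (fun t : ℝ => 2 * t) hR
  have hcomp : complexPeriod W = 2 ^ e * (Op * Om) := hC
  have hOmega : Omega F W = 2 ^ d *
      (Op ^ (nrRealPlaces F + nrComplexPlaces F) * Om ^ nrComplexPlaces F) := by
    unfold Omega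
    rw [hreal, hcomp, ← hE, pow_add, pow_add, pow_mul, mul_pow, mul_pow, mul_pow]
    ring
  have hOmega0 : 0 < Omega F W := by
    rw [hOmega]; positivity
  have hD0 : D ≠ 0 := fun h => hD (h ▸ dvd_zero _)
  have hDd : ¬ ((2 : ℕ) : ℤ) ∣ D ^ Module.finrank ℚ F := fun h =>
    hD (Prime.dvd_of_dvd_pow Int.prime_two h)
  have hDabs : 0 < |(D : ℝ)| ^ Module.finrank ℚ F :=
    pow_pos (abs_pos.2 (Int.cast_ne_zero.2 hD0)) _
  have hval' : ‖H 1‖ * √|(discr F : ℝ)| =
      |(M' : ℝ)| / |(D : ℝ)| ^ Module.finrank ℚ F * Omega F W := by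
    rw [hMM] at hval
    rw [hOmega]
    push_cast at hval
    rw [abs_mul, abs_of_pos (by positivity : (0 : ℝ) < 2 ^ d)] at hval
    field_simp
    linear_combination hval
  have hre : H 1 = ((H 1).re : ℂ) := Complex.ext rfl (by rw [him]; rfl)
  have hnorm : ‖H 1‖ = |(H 1).re| := by
    rw [hre, Complex.norm_real, Real.norm_eq_abs, Complex.ofReal_re]
  have hcastD : |((D ^ Module.finrank ℚ F : ℤ) : ℚ)| = |(D : ℚ)| ^ Module.finrank ℚ F := by
    rw [Int.cast_pow, abs_pow]
  constructor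
  · rintro ⟨hB, hU⟩
    obtain ⟨h1, h2⟩ := (units_iff hΔ hp).1 ⟨hU, hB.points⟩
    refine ⟨h1, ⟨hB.minimal, h2⟩, hunit.1 ?_⟩
    obtain ⟨L, hL1, hL2, -, r, hr1, hr2, hr3⟩ := hB.formula
    rw [units_val hp hU] at hr3
    have e : L = H := by
      have hLa : AnalyticOnNhd ℂ L Set.univ := fun z _ => hL1.analyticAt z
      have hHa : AnalyticOnNhd ℂ H Set.univ := fun z _ => hHd.analyticAt z
      refine hLa.eq_of_eventuallyEq hHa (z₀ := 2) ?_
      have hopen : IsOpen {s : ℂ | 3 / 2 < s.re} := isOpen_lt continuous_const Complex.continuous_re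
      filter_upwards [hopen.mem_nhds (show (2 : ℂ) ∈ {s : ℂ | 3 / 2 < s.re} by
        simp only [Set.mem_ofPred_eq]; norm_num)] with s hs
      exact (hL2 s hs).unique (hHp s hs)
    rw [e] at hr1
    -- the absolute value of `r`
    have hrabs : |(r : ℝ)| = |(M' : ℝ)| / |(D : ℝ)| ^ Module.finrank ℚ F := by
      have h3 := congrArg norm hr1
      rw [norm_mul, norm_mul, Complex.norm_real, Complex.norm_real, Real.norm_eq_abs,
        Real.norm_eq_abs, abs_of_nonneg (Real.sqrt_nonneg _), abs_of_pos hOmega0, hval'] at h3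
      have h4 : ‖(r : ℂ)‖ = |(r : ℝ)| := by
        rw [← Complex.ofReal_ratCast, Complex.norm_real, Real.norm_eq_abs]
      rw [h4] at h3
      exact (mul_right_cancel₀ hOmega0.ne' h3).symm
    have hM0 : M' ≠ 0 := by
      rintro h0
      rw [h0] at hrabs
      simp only [Int.cast_zero, abs_zero, zero_div, abs_eq_zero] at hrabs
      exact hr2 (by exact_mod_cast hrabs)
    have hrq : |r| = |(M' : ℚ)| / (|((D ^ Module.finrank ℚ F : ℤ) : ℚ)| * 1) := by
      rw [hcastD]
      have h5 : ((|r| : ℚ) : ℝ) =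
          ((|(M' : ℚ)| / (|(D : ℚ)| ^ Module.finrank ℚ F * 1) : ℚ) : ℝ) := by
        push_cast
        rw [mul_one]
        exact hrabs
      exact_mod_cast h5
    have hrv : padicValRat 2 |r| = 0 := by
      rcases abs_choice r with h6 | h6
      · rw [h6]; exact hr3
      · rw [h6, padicValRat.neg]; exact hr3
    have h7 := val_zero hp (D ^ Module.finrank ℚ F) M' hDd hM0 1 (Or.inl rfl) 1 one_ne_zero
      padicValRat.one
    rw [one_mul, ← hrq] at h7
    exact h7.1 hrv
  · rintro ⟨h1, ⟨hmin, h2⟩, h3⟩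
    obtain ⟨hU, hfin⟩ := (units_iff hΔ hp).2 ⟨h1, h2⟩
    have hpM := hunit.2 h3
    have hM0 : M' ≠ 0 := fun h => hpM (h ▸ dvd_zero _)
    have hMabs : 0 < |(M' : ℝ)| := abs_pos.2 (Int.cast_ne_zero.2 hM0)
    have hH1 : H 1 ≠ 0 := by
      intro h
      rw [h, norm_zero, zero_mul] at hval'
      have : 0 < |(M' : ℝ)| / |(D : ℝ)| ^ Module.finrank ℚ F * Omega F W := by positivity
      exact this.ne hval'
    refine ⟨⟨hmin, tn_finite hΔ, rank_eq hfin, hfin, by rw [hU.sha]; exact Set.finite_singleton 0,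
      H, hHd, hHp, analyticOrderAt_eq_zero.2 (Or.inr hH1), ?_⟩, hU⟩
    obtain ⟨ε, hε, hεr⟩ : ∃ ε : ℚ, (ε = 1 ∨ ε = -1) ∧ (H 1).re = ε * |(H 1).re| := by
      rcases le_total 0 (H 1).re with h | h
      · exact ⟨1, Or.inl rfl, by rw [abs_of_nonneg h]; push_cast; ring⟩
      · exact ⟨-1, Or.inr rfl, by rw [abs_of_nonpos h]; push_cast; ring⟩
    refine ⟨ε * (|(M' : ℚ)| / (|((D ^ Module.finrank ℚ F : ℤ) : ℚ)| * 1)), ?_, ?_, ?_⟩
    · rw [hnorm] at hval'
      rw [hre, hεr, hcastD]
      have h2 : ((|(H 1).re| : ℝ) : ℂ) * (√|(discr F : ℝ)| : ℝ) =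
          ((|(M' : ℝ)| / |(D : ℝ)| ^ Module.finrank ℚ F * Omega F W : ℝ) : ℂ) := by
        rw [← Complex.ofReal_mul, hval']
      have h3 : ∀ x : ℤ, (((|(x : ℚ)| : ℚ) : ℂ)) = ((|(x : ℝ)| : ℝ) : ℂ) := by
        intro x
        rw [← Complex.ofReal_ratCast]
        push_cast
        rfl
      push_cast at h2 ⊢
      rw [h3, h3]
      linear_combination (ε : ℂ) * h2
    · have h1 : ε ≠ 0 := by rcases hε with rfl | rfl <;> norm_num
      have h2 : |(M' : ℚ)| ≠ 0 := abs_ne_zero.2 (Int.cast_ne_zero.2 hM0)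
      have h3 : |((D ^ Module.finrank ℚ F : ℤ) : ℚ)| ≠ 0 :=
        abs_ne_zero.2 (Int.cast_ne_zero.2 (pow_ne_zero _ hD0))
      exact mul_ne_zero h1 (div_ne_zero h2 (mul_ne_zero h3 one_ne_zero))
    · rw [units_val hp hU]
      exact (val_zero hp (D ^ Module.finrank ℚ F) M' hDd hM0 ε hε 1 one_ne_zero
        padicValRat.one).2 hpM

end core

/-- the half symbols and the periods -/
theorem exists_half {N : ℕ} [NeZero N] (W : WeierstrassCurve ℤ) (hΔ : W.Δ ≠ 0)
    (f : CuspForm (Gamma0 N : Subgroup (GL (Fin 2) ℝ)) 2) (hfI : G.IsForm W N f)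
    (Λ : PeriodPair) (hg₂ : Λ.g₂ = (W.c₄ : ℂ) / 12) (hg₃ : Λ.g₃ = (W.c₆ : ℂ) / 216) {c : ℤ}
    (hman : ∀ x ∈ Pool.Agent.Y18.BSD.PG f, (c : ℂ) * x ∈ Λ.lattice)
    {l : ℕ} (hl : l.Prime) (hlN : ¬ l ∣ N) (hl2 : l ≠ 2) (hal : ¬ 2 ∣ al W l) :
    ∃ (Op Om : ℝ) (e : ℕ) (A B u : ℚ → ℤ), 0 < Op ∧ 0 < Om ∧
      ∫ x in {x : ℝ | 0 < G.cubic W x}, 1 / √(G.cubic W x) = Op ∧
      2 * (2 * ∫ x : ℂ, 1 / ‖G.cubic W x‖) = 2 ^ e * (Op * Om) ∧
      IsSym f Op Om (c * (l + 1 - al W l)) A B ∧ HalfSym (W.Δ < 0) A B u ∧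
      (W.Δ < 0 → e = 2) := by
  rcases lt_or_gt_of_ne hΔ with hneg | hpos
  · obtain ⟨Op, Om, hOp, hOm, hlat, hR, hC⟩ := per_neg W hneg Λ hg₂ hg₃
    obtain ⟨A, B, u, hS, hH⟩ := sym_neg hfI hOp hOm (fun x hx => hlat _ (hman x hx)) hl hlN
    exact ⟨Op, Om, 2, A, B, u, hOp, hOm, hR, hC, hS, ⟨hH.per, hH.even, fun _ => hH.odd trivial⟩,
      fun _ => rfl⟩
  · obtain ⟨Op, Om, hOp, hOm, hlat, hR, hC⟩ := per_pos W hpos Λ hg₂ hg₃
    obtain ⟨A, B, hS⟩ := Pool.Agent.P8H4.PL.exists_sym hfI hOp hOm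
      (fun x hx => hlat _ (hman x hx)) hl hlN
    obtain ⟨u, hH⟩ := sym_pos hfI hOp hOm hS hl hlN hl2 hal
    exact ⟨Op, Om, 1, A, B, u, hOp, hOm, hR, hC, hS, ⟨hH.per, hH.even, fun h => absurd h hpos.le.not_gt⟩,
      fun h => absurd h hpos.le.not_gt⟩

end proof

open Pool.Agent.Y702 Pool.Agent.P8H4.PL in
/-- **Main theorem.** Let `W` be a Weierstrass equation with integral coefficients and discriminant
`Δ ≠ 0`; let `f` be the newform of `W`, of a level `N` with the same prime divisors as `Δ`; let `Λ` be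
the period lattice of the differential `dx / (2 y + a₁ x + a₃)` of `W` (the lattice with
`g₂ = c₄ / 12`, `g₃ = c₆ / 216`), and assume that `c` times the periods of `2 π i f(z) dz` on `Γ₀(N)` are
in `Λ` for some odd `c` (the Manin constant is odd), and that `#W(𝔽_l)` is odd for at least one odd
prime `l` that does not divide `Δ`.  Let `m` be odd, squarefree and prime to `Δ`, `M` the `m`-th
cyclotomic field, and `k ⊂ K` subfields of `M` (`k` can be the field of the rational numbers) with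
`[K : k] = 2^n`, such that the places of `k` above three do not ramify in `K`.  Assume that `Δ < 0` or
that `K` is totally real.

Then the `2`-part of the Birch and Swinnerton-Dyer conjecture holds for `W` over `K` with all its terms
odd if and only if it holds for `W` over `k` with all its terms odd, and `#W(k_w)` (counted with the
point at infinity) is odd for all places `w` of `k` which ramify in `K`. -/
theorem result {N : ℕ} [NeZero N]
    (W : WeierstrassCurve ℤ) (hΔ : W.Δ ≠ 0)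
    (f : CuspForm (Gamma0 N : Subgroup (GL (Fin 2) ℝ)) 2) (hf : IsNewform W N f)
    (Λ : PeriodPair) (hg₂ : Λ.g₂ = (W.c₄ : ℂ) / 12) (hg₃ : Λ.g₃ = (W.c₆ : ℂ) / 216)
    (hman : ∃ c : ℤ, Odd c ∧ ∀ γ ∈ Gamma0 N, ∀ z : ℍ,
      (c : ℂ) * (prim f ((γ • z : ℍ) : ℂ) - prim f (z : ℂ)) ∈ Λ.lattice)
    (haux : ∃ l : ℕ, l.Prime ∧ l ≠ 2 ∧ ¬ (l : ℤ) ∣ W.Δ ∧ Odd (pts W (ZMod l) + 1))
    (m : ℕ) [NeZero m] (hodd : Odd m) (hsq : Squarefree m)
    (hm : ∀ l : ℕ, l.Prime → l ∣ m → ¬ (l : ℤ) ∣ W.Δ)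
    (M : Type) [Field M] [NumberField M] [IsCyclotomicExtension {m} ℚ M]
    (k K : IntermediateField ℚ M) (hkK : k ≤ K) (n : ℕ)
    (hn : Module.finrank ℚ K = 2 ^ n * Module.finrank ℚ k)
    (hthree : ∀ (w : HeightOneSpectrum (𝓞 k)) (v : HeightOneSpectrum (𝓞 K)), Ramified hkK w v →
      (3 : 𝓞 k) ∉ w.asIdeal)
    (hreal : W.Δ < 0 ∨ IsTotallyReal K) :
    (BSDPart 2 K W ∧ AllUnits 2 K W) ↔ (BSDPart 2 k W ∧ AllUnits 2 k W ∧
      ∀ (w : HeightOneSpectrum (𝓞 k)) (v : HeightOneSpectrum (𝓞 K)), Ramified hkK w v →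
        Odd (pts W (𝓞 k ⧸ w.asIdeal) + 1)) := by
  have hp := Nat.prime_two
  have hfI := isForm hf
  let alg : Algebra k K := (IntermediateField.inclusion hkK).toRingHom.toAlgebra
  have hgalK : IsGalois ℚ K := Pool.Agent.Y702.L.gal_F m M K
  have hgalk : IsGalois ℚ k := Pool.Agent.Y702.L.gal_F m M k
  have hst : IsScalarTower ℚ k K := IsScalarTower.of_algebraMap_eq fun x => by simp
  have hgal : IsGalois k K := IsGalois.tower_top_of_isGalois ℚ k K
  have hfin : FiniteDimensional k K := FiniteDimensional.right ℚ k K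
  have hn' : Module.finrank k K = 2 ^ n := by
    have h1 := Module.finrank_mul_finrank ℚ k K
    rw [hn, mul_comm] at h1
    exact Nat.eq_of_mul_eq_mul_right Module.finrank_pos h1
  -- the periods
  obtain ⟨cc, hcc, hman'⟩ := hman
  have hper : ∀ x ∈ Pool.Agent.Y18.BSD.PG f, (cc : ℂ) * x ∈ Λ.lattice := by
    rintro x ⟨γ, rfl⟩
    have h1 := Pool.Agent.Y18.BSD.per_spec f (Additive.toMul γ) UpperHalfPlane.I
    have h2 := hman' _ (Additive.toMul γ).2 UpperHalfPlane.I
    have h3 : prim f ((((Additive.toMul γ : Gamma0 N) : SL(2, ℤ)) • UpperHalfPlane.I : ℍ) : ℂ) -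
        prim f (UpperHalfPlane.I : ℂ) = Pool.Agent.Y18.BSD.per f (Additive.toMul γ) := by
      have h4 : prim f ((((Additive.toMul γ : Gamma0 N) : SL(2, ℤ)) • UpperHalfPlane.I : ℍ) : ℂ) =
          prim f (UpperHalfPlane.I : ℂ) + Pool.Agent.Y18.BSD.per f (Additive.toMul γ) := h1
      rw [h4]
      ring
    rw [h3] at h2
    exact h2
  obtain ⟨l₀, hl₀, hl₀2, hl₀Δ, hl₀p⟩ := haux
  have hl₀N : ¬ l₀ ∣ N := fun h => hl₀Δ ((hfI.level l₀ hl₀).1 h)
  have hdl : ((l₀ : ℤ) + 1 - al W l₀) = ((pts W (ZMod l₀) + 1 : ℕ) : ℤ) := by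
    have : al W l₀ = (l₀ : ℤ) - pts W (ZMod l₀) := rfl
    rw [this]
    push_cast
    ring
  have hD1 : Odd ((l₀ : ℤ) + 1 - al W l₀) := by
    rw [hdl]
    exact (Int.odd_coe_nat _).2 hl₀p
  have hD : ¬ (2 : ℤ) ∣ cc * (l₀ + 1 - al W l₀) := by
    intro h
    exact (Int.not_even_iff_odd.2 (hcc.mul hD1)) (even_iff_two_dvd.2 h)
  have hal : ¬ (2 : ℤ) ∣ al W l₀ := by
    intro h
    have h1 : Odd (l₀ : ℤ) := (Int.odd_coe_nat _).2 (hl₀.odd_of_ne_two hl₀2)
    obtain ⟨x, hx⟩ := h
    obtain ⟨y, hy⟩ := h1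
    obtain ⟨z, hz⟩ := hD1
    omega
  obtain ⟨Op, Om, e, A, B, u, hOp, hOm, hR, hC, hS, hH, he⟩ :=
    exists_half W hΔ f hfI Λ hg₂ hg₃ hper hl₀ hl₀N hl₀2 hal
  obtain ⟨𝔽, hF, hch, ⟨φ⟩⟩ := exists_red 2 hp
  -- the levels
  have hmN : Nat.Coprime m N := by
    rw [Nat.coprime_iff_gcd_eq_one]
    by_contra h
    obtain ⟨l, hl, hl2⟩ := Nat.exists_prime_and_dvd h
    have h3 := (hfI.level l hl).1 (hl2.trans (Nat.gcd_dvd_right _ _))
    exact hm l hl (hl2.trans (Nat.gcd_dvd_left _ _)) h3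
  -- the infinite places
  have hcx : W.Δ < 0 ∨ nrComplexPlaces K = 0 := by
    rcases hreal with h | h
    · exact Or.inl h
    · exact Or.inr (nrComplexPlaces_eq_zero_iff.2 h)
  have hrelK : ∀ χ ∈ H300.HW.YY m M K, Pool.Agent.P8H4.PT.Rel (W.Δ < 0) χ := by
    intro χ hχ
    rcases hcx with h | h
    · exact Or.inl h
    · right
      by_contra hne
      have h1 := (Pool.Agent.Y702.L.card_even_odd (n := m) (L := M) (F := K)).2
      rw [h, Finset.card_eq_zero] at h1
      have h2 : (⟨χ, hχ⟩ : H300.HW.YY m M K) ∈ Finset.univ.filter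
          (fun χ : H300.HW.YY m M K => ¬ (χ : DirichletCharacter ℂ m) (-1) = 1) :=
        Finset.mem_filter.2 ⟨Finset.mem_univ _, hne⟩
      rw [h1] at h2
      exact absurd h2 (Finset.notMem_empty _)
  have hrelk : ∀ χ ∈ H300.HW.YY m M k, Pool.Agent.P8H4.PT.Rel (W.Δ < 0) χ :=
    fun χ hχ => hrelK χ (YY_mono m M hkK hχ)
  have hcxk : W.Δ < 0 ∨ nrComplexPlaces k = 0 := by
    rcases hreal with h | h
    · exact Or.inl h
    · right
      rw [nrComplexPlaces_eq_zero_iff]
      exact IsTotallyReal.of_algebra k K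
  have hEgen : ∀ (F : IntermediateField ℚ M), (W.Δ < 0 ∨ nrComplexPlaces F = 0) →
      nrRealPlaces F + e * nrComplexPlaces F = Module.finrank ℚ F := by
    intro F h
    rw [← card_add_two_mul_card_eq_rank]
    rcases h with h | h
    · rw [he h]
    · rw [h, mul_zero, mul_zero]
  -- the places
  have hmap : (RingOfIntegers.mapRingHom (IntermediateField.inclusion hkK) : 𝓞 k →+* 𝓞 K) =
      algebraMap (𝓞 k) (𝓞 K) := rfl
  have hgood : ∀ v : HeightOneSpectrum (𝓞 K), Ram k v →
      ((6 * (2 : ℕ) * W.Δ : ℤ) : 𝓞 K) ∉ v.asIdeal := by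
    refine fun v hv => Pool.Agent.P8H4.PM.ram_good m M hkK hsq hp hn hm (fun v hv => Or.inr ?_) v hv
    intro h
    refine hthree (v.under (𝓞 k)) v hv ?_
    have h1 := (Pool.Agent.P8H4.PM.mem_under (k := k) v 3).2 h
    push_cast at h1
    exact h1
  have hgood' : ∀ v : HeightOneSpectrum (𝓞 K), Ram k v → ((W.Δ : ℤ) : 𝓞 K) ∉ v.asIdeal := by
    intro v hv h
    apply hgood v hv
    push_cast
    exact Ideal.mul_mem_left _ _ h
  rw [field_iff hΔ hfI hOp hOm hR hC hD hS hH φ m hsq hodd hmN M K hrelK (hEgen K hcx),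
    ← and_assoc (a := BSDPart 2 k W),
    field_iff hΔ hfI hOp hOm hR hC hD hS hH φ m hsq hodd hmN M k hrelk (hEgen k hcxk),
    Pool.Agent.P8H4.PM.loc_iff2 Pool.Agent.P8H4.PM.TN Pool.Agent.P8H4.PM.MG (k := k) (K := K) hp hn'
      hΔ hgood',
    Pool.Agent.P8H4.PT.nz_iff_half (k := k) (K := K) m M hkK hsq hodd hm hp hn φ hH hrelK hS.perA hS.perB
      (fun l hl hlm => hS.hecke hfI hOp hOm hl (fun h => hm l hl hlm ((hfI.level l hl).1 h)))]
  -- ramification
  have hram : (∀ (w : HeightOneSpectrum (𝓞 k)) (v : HeightOneSpectrum (𝓞 K)), Ramified hkK w v →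
        Odd (pts W (𝓞 k ⧸ w.asIdeal) + 1)) ↔ ∀ v : HeightOneSpectrum (𝓞 K), Ram k v →
        ¬ 2 ∣ Pool.Agent.Y702.G.pts W (𝓞 k ⧸ v.asIdeal.under (𝓞 k)) + 1 := by
    constructor
    · intro h v hv
      have h1 := h (v.under (𝓞 k)) v hv
      intro h2
      exact (Nat.not_even_iff_odd.2 h1) (even_iff_two_dvd.2 h2)
    · intro h w v hwv
      have hw : w.asIdeal = v.asIdeal.under (𝓞 k) := by
        have hmaxw : w.asIdeal.IsMaximal := w.isMaximal
        apply hmaxw.eq_of_le (Ideal.IsPrime.under (𝓞 k) v.asIdeal).ne_top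
        intro x hx
        have h1 : algebraMap (𝓞 k) (𝓞 K) x ∈ v.asIdeal ^ 2 := by
          apply hwv
          rw [hmap]
          exact Ideal.mem_map_of_mem _ hx
        have h2 : algebraMap (𝓞 k) (𝓞 K) x ∈ v.asIdeal := Ideal.pow_le_self two_ne_zero h1
        exact h2
      have hv : Ram k v := by
        unfold Ram
        rw [← hw]
        exact hwv
      have h1 := h v hv
      rw [← hw] at h1
      rw [← Nat.not_even_iff_odd, even_iff_two_dvd]
      exact h1
  rw [hram]
  constructor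
  · rintro ⟨h1, h2, h3, h4⟩
    exact ⟨⟨Pool.Agent.P8H4.PT.p1_down (k := k) hp hΔ h1, h2, h3⟩, h4⟩
  · rintro ⟨⟨h1, h2, h3⟩, h4⟩
    refine ⟨Pool.Agent.P8H4.PM.p1_up3 Pool.Agent.P8H4.PM.LP (k := k) (K := K) hp hn' hΔ
      (fun v hv => ⟨hgood v hv, h4 v hv⟩) h2.2 (Or.inr ?_) h1, h2, h3, h4⟩
    rcases hreal with h | h
    · exact Or.inl h
    · right
      intro j
      exact IsTotallyReal.complexEmbedding_isReal j

end Pool.Agent.Results.MP_9ab903_nt.TwoPartRelative
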